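import Pool.Agent.V1119.NE.TurE

/-!
# Turán's `(3,4)`-conjecture when the codegree sums separate edges and non-edges

`G` is a 3-graph on `n` vertices in which every four vertices contain an edge. The codegree sum
`codegreeSum G T` of a triple `T` of vertices is the sum of the codegrees of its three pairs. In
Turán's construction with three equal parts the codegree sum is at least `4 n / 3 - 4` for all edges
and at most `4 n / 3 - 4` for all other triples. It is proved that Turán's bound, density `4/9`,
holds for all such `G` in which the codegree sums separate the edges from the other triples in this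
way, with stability and with some room for the edges: if the codegree sum is at least
`(1.32 - δ) n - 6` for all edges, and at most `(4/3 + δ) n - 6` for all other triples, then

`2 n³ / 27 - n² / 2 + n / 3 ≤ |G| + 3 δ n³`,

and `G` is close to Turán's construction if `|G|` is close to the bound and `δ` is small. For the
edges the condition is needed only if `ext G 3 T > 0` and `ext G 2 T > 0`, where `ext G j T` is the
number of vertices `v` outside `T` such that `T ∪ {v}` contains exactly `j` edges. All this follows
from an inequality for all such `G` with sums over the triples that violate the condition.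

Outline: a sum of squares certificate for six-vertex structures with two multipliers for the types
formed by the three vertices of an edge or a non-edge of `G` (products of three flags with four
vertices), found by a semidefinite programming solver and made exact, with a positive slack for the
3-graphs on six vertices that are not contained in Turán's construction (checked by the kernel).
-/

set_option autoImplicit false
open Finset
open scoped Classical

namespace Pool.Agent.Results.MP_466853_co.CodegreeSums
open Pool.Agent.TH773.Cov

/-- The sum of the codegrees of the three pairs of vertices in `T`. The codegree of a pair `p` is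
the number of vertices `z` such that `p ∪ {z}` is an edge of `G` (a set with three elements). -/
noncomputable def codegreeSum {n : ℕ} (G : Finset (Finset (Fin n))) (T : Finset (Fin n)) : ℕ :=
  ∑ p ∈ T.powersetCard 2, ((univ : Finset (Fin n)).filter fun z => insert z p ∈ G).card

/-- The number of vertices `v` outside `T` such that `T ∪ {v}` contains exactly `j` edges of `G`. -/
noncomputable def ext {n : ℕ} (G : Finset (Finset (Fin n))) (j : ℕ) (T : Finset (Fin n)) : ℕ :=
  ((univ : Finset (Fin n)).filter fun v =>
    v ∉ T ∧ (G.filter fun e => e ⊆ insert v T).card = j).card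

/-- The bound for `|G|` in Turán's problem: `2 n³ / 27 - n² / 2 + n / 3`, which is
`C(n,3) - 5 n³ / 54`. -/
noncomputable def turanBound (n : ℕ) : ℝ := 2 / 27 * (n : ℝ) ^ 3 - (n : ℝ) ^ 2 / 2 + (n : ℝ) / 3

/-- For all 3-graphs `G` on `n` vertices in which every four vertices contain an edge: (1) Turán's
bound up to sums over the triples; (2) the distance to Turán's construction; (3) the consequences
for codegree sums that separate the edges from the other triples up to `δ`. (4) In Turán's
construction with three parts of size `m` the codegree sums separate them at `4 m - 4`. -/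
theorem result :
    (∀ (n : ℕ) (G : Finset (Finset (Fin n))), (∀ e ∈ G, e.card = 3) → CoversQuadruples G →
      (n : ℝ) ^ 3 * turanBound n ≤ (n : ℝ) ^ 3 * G.card +
        (3 / 2 * ∑ T ∈ (univ : Finset (Fin n)).powersetCard 3 \ G,
          ((codegreeSum G T : ℝ) - n + 6) ^ 2 * (3 * (codegreeSum G T : ℝ) + 18 - 4 * n) +
        3 / 20 * ∑ T ∈ G, (ext G 3 T : ℝ) * ext G 2 T *
          (33 * (n : ℝ) - 150 - 25 * codegreeSum G T)) ∧
      (∃ g : Fin n → Fin 3, (n : ℝ) ^ 3 * ((symmDiff G (turanC g)).card : ℝ) ≤
        2844979200 * ((n : ℝ) ^ 3 * G.card - (n : ℝ) ^ 3 * turanBound n +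
        (3 / 2 * ∑ T ∈ (univ : Finset (Fin n)).powersetCard 3 \ G,
          ((codegreeSum G T : ℝ) - n + 6) ^ 2 * max (3 * (codegreeSum G T : ℝ) + 18 - 4 * n) 0 +
        3 / 20 * ∑ T ∈ G, (ext G 3 T : ℝ) * ext G 2 T *
          max (33 * (n : ℝ) - 150 - 25 * codegreeSum G T) 0))) ∧
      (∃ g : Fin n → Fin 3, ∀ δ : ℝ, 0 ≤ δ →
        (∀ T ∈ G, ext G 3 T * ext G 2 T ≠ 0 →
          (33 / 25 - δ) * (n : ℝ) ≤ codegreeSum G T + 6) →
        (∀ T : Finset (Fin n), T.card = 3 → T ∉ G →
          (codegreeSum G T : ℝ) + 6 ≤ (4 / 3 + δ) * (n : ℝ)) →
        turanBound n ≤ G.card + 3 * δ * (n : ℝ) ^ 3 ∧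
        ((symmDiff G (turanC g)).card : ℝ) ≤
          2844979200 * (G.card + 3 * δ * (n : ℝ) ^ 3 - turanBound n))) ∧
    (∀ m : ℕ, 0 < m → ∀ g : Fin (3 * m) → Fin 3,
      (∀ k, ((univ : Finset (Fin (3 * m))).filter fun v => g v = k).card = m) →
      CoversQuadruples (turanC g) ∧ ∀ T : Finset (Fin (3 * m)), T.card = 3 →
        (T ∈ turanC g → 4 * m ≤ codegreeSum (turanC g) T + 4) ∧
        (T ∉ turanC g → codegreeSum (turanC g) T + 4 ≤ 4 * m)) :=
  ⟨fun _ _ h3 hc => ⟨Pool.Agent.V1119.NE2.covD h3 hc, Pool.Agent.V1119.NE2.covSD h3 hc,
    Pool.Agent.V1119.NE2.covLD h3 hc⟩,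
    fun m hm g hg => ⟨covers_turanC g, fun _ hT =>
      Pool.Agent.V1119.NE2.codsum_turanC m hm g hg hT⟩⟩

end Pool.Agent.Results.MP_466853_co.CodegreeSums
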