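import Pool.Agent.V11141.DP.Lower

/-!
# Vertices of large degree in `K_{r+1}^r`-free `r`-graphs and Turán's (3,4)-conjecture

Turán's (3,4)-problem asks for the largest sum of the degrees of the vertices of a `K_4^3`-free
3-graph. We consider the sums of the `p`-th powers of the degrees for large `p`, for `r`-graphs `H`
without `K_{r+1}^r`, and the number of the vertices of nearly full degree. Let `π` be the Turán
density of the `(r-2)`-graph `K_{r-1}^{r-2}` and `κ = (r - 1) (1 - π)`.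

* As `p → ∞`, the largest sum of the `p`-th powers of the degrees is
  `(1 / (e κ) + o(1)) / p * n * C(n, r-1) ^ p`.
* As `ε → 0`, the largest number of vertices of degree at least `(1 - ε) C(n, r-1)` is
  `(1 / κ + o(1)) ε n`.

For 3-graphs `κ = 2`. For `r = 5` the number `π` is the Turán density of `K_4^3`, so that Turán's
(3,4)-conjecture is equivalent to two statements about the vertices of large degree of
`K_6^5`-free 5-graphs.

Idea: if the degrees of `x` and `y` are nearly full, then almost every `K_{r-1}^{r-2}` in the link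
of the pair `x, y` would give a copy of `K_{r+1}^r`; so the density of this link is at most
`π + o(1)`, and the edges missing at the pairs of vertices of large degree add up.
-/

set_option autoImplicit false

namespace Pool.Agent.Results.MP_466853_co.DegreePowers

open Finset Pool.Agent.H120R2.Clique

/-- The `r`-graph `H` has no set of `r + 1` vertices all of whose `r`-element subsets are edges. -/
def Free {n : ℕ} (r : ℕ) (H : Finset (Finset (Fin n))) : Prop :=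
  (∀ e ∈ H, e.card = r) ∧ ∀ T : Finset (Fin n), T.card = r + 1 → ∃ e ⊆ T, e.card = r ∧ e ∉ H

/-- The number of edges of `H` containing the vertex `x`. -/
def deg {n : ℕ} (H : Finset (Finset (Fin n))) (x : Fin n) : ℕ :=
  (H.filter (fun e => x ∈ e)).card

/-- The number of vertices of degree at least `(1 - ε) C(n, r-1)`. -/
noncomputable def large {n : ℕ} (r : ℕ) (ε : ℝ) (H : Finset (Finset (Fin n))) : ℕ :=
  (univ.filter (fun x : Fin n => (1 - ε) * (n.choose (r - 1) : ℝ) ≤ deg H x)).card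

/-- For every `δ > 0` and all large `p`, if `n` is large, then the sum of the `p`-th powers of the
degrees of a `K_{r+1}^r`-free `r`-graph on `n` vertices is at most
`(c + δ) / p * n * C(n, r-1) ^ p`. -/
def PowersLe (r : ℕ) (c : ℝ) : Prop :=
  ∀ δ : ℝ, 0 < δ → ∃ P : ℝ, ∀ p : ℝ, P ≤ p → ∃ n₀ : ℕ, ∀ n : ℕ, n₀ ≤ n →
    ∀ H : Finset (Finset (Fin n)), Free r H →
    ∑ x : Fin n, (deg H x : ℝ) ^ p ≤ (c + δ) / p * n * (n.choose (r - 1) : ℝ) ^ p

/-- For every `δ > 0` and all large `p`, if `n` is large, then the sum of the `p`-th powers of the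
degrees of some `K_{r+1}^r`-free `r`-graph on `n` vertices is at least
`(c - δ) / p * n * C(n, r-1) ^ p`. -/
def PowersGe (r : ℕ) (c : ℝ) : Prop :=
  ∀ δ : ℝ, 0 < δ → ∃ P : ℝ, ∀ p : ℝ, P ≤ p → ∃ n₀ : ℕ, ∀ n : ℕ, n₀ ≤ n →
    ∃ H : Finset (Finset (Fin n)), Free r H ∧
    (c - δ) / p * n * (n.choose (r - 1) : ℝ) ^ p ≤ ∑ x : Fin n, (deg H x : ℝ) ^ p

/-- For every `δ > 0` and all small `ε > 0`, if `n` is large, then every `K_{r+1}^r`-free `r`-graph
on `n` vertices has at most `(c + δ) ε n` vertices of degree at least `(1 - ε) C(n, r-1)`. -/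
def LargeLe (r : ℕ) (c : ℝ) : Prop :=
  ∀ δ : ℝ, 0 < δ → ∃ ε₀ : ℝ, 0 < ε₀ ∧ ∀ ε : ℝ, 0 < ε → ε ≤ ε₀ → ∃ n₀ : ℕ, ∀ n : ℕ, n₀ ≤ n →
    ∀ H : Finset (Finset (Fin n)), Free r H → (large r ε H : ℝ) ≤ (c + δ) * ε * n

/-- For every `δ > 0` and all small `ε > 0`, if `n` is large, then some `K_{r+1}^r`-free `r`-graph
on `n` vertices has at least `(c - δ) ε n` vertices of degree at least `(1 - ε) C(n, r-1)`. -/
def LargeGe (r : ℕ) (c : ℝ) : Prop :=
  ∀ δ : ℝ, 0 < δ → ∃ ε₀ : ℝ, 0 < ε₀ ∧ ∀ ε : ℝ, 0 < ε → ε ≤ ε₀ → ∃ n₀ : ℕ, ∀ n : ℕ, n₀ ≤ n →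
    ∃ H : Finset (Finset (Fin n)), Free r H ∧ (c - δ) * ε * n ≤ (large r ε H : ℝ)

theorem free_iff {n : ℕ} (r : ℕ) (H : Finset (Finset (Fin n))) :
    Free r H ↔ (∀ e ∈ H, e.card = r) ∧ ¬ HasClique H r (r + 1) := by
  unfold Free HasClique
  refine and_congr_right fun _ => ?_
  constructor
  · rintro h ⟨A, hA, hAH⟩
    obtain ⟨e, he, her, heH⟩ := h A hA
    exact heH (hAH (mem_powersetCard.2 ⟨he, her⟩))
  · intro h T hT
    by_contra hcon
    push Not at hcon
    refine h ⟨T, hT, fun e he => ?_⟩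
    rw [mem_powersetCard] at he
    exact hcon e he.1 he.2

theorem deg_eq {n : ℕ} (H : Finset (Finset (Fin n))) (x : Fin n) :
    Pool.Agent.V11141.DP.deg H x = deg H x := rfl

/-- `κ` -/
noncomputable def kappa (r : ℕ) : ℝ := ((r : ℝ) - 1) * (1 - turanDensity (r - 2) (r - 1))

theorem kappa_eq (q : ℕ) : kappa (q + 2) = Pool.Agent.V11141.DP.kap q := by
  unfold kappa Pool.Agent.V11141.DP.kap
  rw [show q + 2 - 2 = q by omega, show q + 2 - 1 = q + 1 by omega]
  push_cast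
  ring

theorem general (r : ℕ) (hr : 3 ≤ r) : PowersLe r (Real.exp (-1) / kappa r) ∧
    PowersGe r (Real.exp (-1) / kappa r) ∧ LargeLe r (1 / kappa r) ∧ LargeGe r (1 / kappa r) := by
  obtain ⟨q, rfl⟩ : ∃ q, r = q + 2 := ⟨r - 2, by omega⟩
  rw [kappa_eq]
  have hq : 1 ≤ q := by omega
  refine ⟨?_, ?_, ?_, ?_⟩
  · intro δ hδ
    obtain ⟨P, hP⟩ := Pool.Agent.V11141.DP.upper q hq δ hδ
    refine ⟨P, fun p hp => ?_⟩
    obtain ⟨n₀, h⟩ := hP p hp
    refine ⟨n₀, fun n hn H hH => ?_⟩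
    rw [free_iff] at hH
    exact h n hn H hH.1 hH.2
  · intro δ hδ
    obtain ⟨P, hP⟩ := Pool.Agent.V11141.DP.lower q hq δ hδ
    refine ⟨P, fun p hp => ?_⟩
    obtain ⟨n₀, h⟩ := hP p hp
    refine ⟨n₀, fun n hn => ?_⟩
    obtain ⟨H, h1, h2, h3⟩ := h n hn
    exact ⟨H, (free_iff _ _).2 ⟨h1, h2⟩, h3⟩
  · intro δ hδ
    obtain ⟨ε₀, hε₀, hP⟩ := Pool.Agent.V11141.DP.largeUpper q hq δ hδ
    refine ⟨ε₀, hε₀, fun ε h0 h1 => ?_⟩
    obtain ⟨n₀, h⟩ := hP ε h0 h1
    refine ⟨n₀, fun n hn H hH => ?_⟩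
    rw [free_iff] at hH
    exact h n hn H hH.1 hH.2
  · intro δ hδ
    obtain ⟨ε₀, hε₀, hP⟩ := Pool.Agent.V11141.DP.largeLower q hq δ hδ
    refine ⟨ε₀, hε₀, fun ε h0 h1 => ?_⟩
    obtain ⟨n₀, h⟩ := hP ε h0 h1
    refine ⟨n₀, fun n hn => ?_⟩
    obtain ⟨H, h1, h2, h3⟩ := h n hn
    exact ⟨H, (free_iff _ _).2 ⟨h1, h2⟩, h3⟩

/-- at most one vertex in a 1-graph without two vertices: `π(K_2^1) = 0` -/
theorem density_one_two : turanDensity 1 2 = 0 := by
  have h1 : ∀ n : ℕ, ex n 1 2 ≤ 1 := by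
    intro n
    obtain ⟨G, hG1, hG2, hG3⟩ :=
      Pool.Agent.V11141.DP.exists_extremal (n := n) (k := 1) (m := 2) (by omega)
    rw [← hG3]
    by_contra hcon
    push Not at hcon
    obtain ⟨A, B, hA, hB, hAB⟩ := Finset.one_lt_card_iff.1 hcon
    obtain ⟨a, rfl⟩ := card_eq_one.1 (hG1 A hA)
    obtain ⟨b, rfl⟩ := card_eq_one.1 (hG1 B hB)
    have hab : a ≠ b := fun h => hAB (by rw [h])
    refine hG2 ⟨{a, b}, card_pair hab, ?_⟩
    intro e he
    rw [mem_powersetCard] at he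
    obtain ⟨c, rfl⟩ := card_eq_one.1 he.2
    have hc := he.1 (mem_singleton_self c)
    rw [mem_insert, mem_singleton] at hc
    rcases hc with rfl | rfl
    · exact hA
    · exact hB
  refine le_antisymm ?_ (Pool.Agent.V11141.DP.density_nonneg 1 2)
  refine le_of_tendsto_of_tendsto' (ratio_tendsto 1 2) tendsto_one_div_atTop_nhds_zero_nat ?_
  intro n
  rw [Nat.choose_one_right]
  have h2 : (ex n 1 2 : ℝ) ≤ 1 := by exact_mod_cast h1 n
  exact div_le_div_of_nonneg_right h2 (Nat.cast_nonneg n)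

theorem kappa_three : kappa 3 = 2 := by
  unfold kappa
  norm_num [density_one_two]

theorem powers_mono {r : ℕ} {c c' : ℝ} (h : c ≤ c') (hc : PowersLe r c) : PowersLe r c' := by
  intro δ hδ
  obtain ⟨P, hP⟩ := hc δ hδ
  refine ⟨max P 1, fun p hp => ?_⟩
  obtain ⟨n₀, h0⟩ := hP p ((le_max_left _ _).trans hp)
  have hp1 : 1 ≤ p := (le_max_right _ _).trans hp
  refine ⟨n₀, fun n hn H hH => (h0 n hn H hH).trans ?_⟩
  have h1 : (c + δ) / p ≤ (c' + δ) / p := div_le_div_of_nonneg_right (by linarith) (by linarith)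
  exact mul_le_mul_of_nonneg_right (mul_le_mul_of_nonneg_right h1 (Nat.cast_nonneg n))
    (Real.rpow_nonneg (Nat.cast_nonneg _) p)

theorem powers_le {r : ℕ} {c c' : ℝ} (hc : PowersLe r c) (hc' : PowersGe r c') : c' ≤ c := by
  by_contra hcon
  push Not at hcon
  obtain ⟨P, hP⟩ := hc ((c' - c) / 3) (by linarith)
  obtain ⟨P', hP'⟩ := hc' ((c' - c) / 3) (by linarith)
  set p := max 1 (max P P') with hp
  have hp1 : 1 ≤ p := le_max_left _ _
  obtain ⟨n₀, h0⟩ := hP p ((le_max_left _ _).trans (le_max_right _ _))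
  obtain ⟨n₁, h1⟩ := hP' p ((le_max_right _ _).trans (le_max_right _ _))
  obtain ⟨H, hH, h2⟩ := h1 (max (n₀ + n₁) (r + 1)) ((Nat.le_add_left _ _).trans (le_max_left _ _))
  have h3 := h0 _ ((Nat.le_add_right _ _).trans (le_max_left _ _)) H hH
  set n := max (n₀ + n₁) (r + 1) with hn
  have hn1 : r + 1 ≤ n := le_max_right _ _
  have hn0 : (0 : ℝ) < n := by
    have : 0 < n := by omega
    exact_mod_cast this
  have pN : (0 : ℝ) < (n.choose (r - 1) : ℝ) ^ p :=
    Real.rpow_pos_of_pos (by exact_mod_cast Nat.choose_pos (by omega)) p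
  have h4 := h2.trans h3
  have h5 := le_of_mul_le_mul_right h4 pN
  have h6 := le_of_mul_le_mul_right h5 hn0
  rw [div_le_div_iff_of_pos_right (by linarith)] at h6
  linarith

theorem large_mono {r : ℕ} {c c' : ℝ} (h : c ≤ c') (hc : LargeLe r c) : LargeLe r c' := by
  intro δ hδ
  obtain ⟨ε₀, hε₀, hP⟩ := hc δ hδ
  refine ⟨ε₀, hε₀, fun ε h1 h2 => ?_⟩
  obtain ⟨n₀, h0⟩ := hP ε h1 h2
  refine ⟨n₀, fun n hn H hH => (h0 n hn H hH).trans ?_⟩
  exact mul_le_mul_of_nonneg_right (mul_le_mul_of_nonneg_right (by linarith) h1.le)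
    (Nat.cast_nonneg n)

theorem large_le {r : ℕ} {c c' : ℝ} (hc : LargeLe r c) (hc' : LargeGe r c') : c' ≤ c := by
  by_contra hcon
  push Not at hcon
  obtain ⟨ε₀, hε₀, hP⟩ := hc ((c' - c) / 3) (by linarith)
  obtain ⟨ε₁, hε₁, hP'⟩ := hc' ((c' - c) / 3) (by linarith)
  set ε := min ε₀ ε₁ with hε
  have hε0 : 0 < ε := lt_min hε₀ hε₁
  obtain ⟨n₀, h0⟩ := hP ε hε0 (min_le_left _ _)
  obtain ⟨n₁, h1⟩ := hP' ε hε0 (min_le_right _ _)
  obtain ⟨H, hH, h2⟩ := h1 (n₀ + n₁ + 1) (by omega)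
  have h3 := h0 _ (by omega) H hH
  have h4 := h2.trans h3
  have h5 := le_of_mul_le_mul_right h4 (by positivity)
  have h6 := le_of_mul_le_mul_right h5 hε0
  linarith

/-- **Vertices of large degree in `K_{r+1}^r`-free `r`-graphs.** The general constants
(`κ = (r - 1) (1 - π(K_{r-1}^{r-2}))`), the case of `K_4^3`-free 3-graphs, and two statements
equivalent to Turán's (3,4)-conjecture. -/
theorem result :
    (∀ r : ℕ, 3 ≤ r → ∀ κ : ℝ, κ = ((r : ℝ) - 1) * (1 - turanDensity (r - 2) (r - 1)) → 1 ≤ κ ∧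
      PowersLe r (Real.exp (-1) / κ) ∧ PowersGe r (Real.exp (-1) / κ) ∧
      LargeLe r (1 / κ) ∧ LargeGe r (1 / κ)) ∧
    (PowersLe 3 (Real.exp (-1) / 2) ∧ PowersGe 3 (Real.exp (-1) / 2) ∧
      LargeLe 3 (1 / 2) ∧ LargeGe 3 (1 / 2)) ∧
    (turanDensity 3 4 ≤ 5 / 9 ↔ PowersLe 5 (9 / 16 * Real.exp (-1))) ∧
    (turanDensity 3 4 ≤ 5 / 9 ↔ LargeLe 5 (9 / 16)) := by
  have he : 0 < Real.exp (-1) := Real.exp_pos _
  have hk5 : kappa 5 = 4 * (1 - turanDensity 3 4) := by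
    unfold kappa
    norm_num
  have h5 := general 5 (by norm_num)
  have hk1 : 1 ≤ kappa 5 := by
    rw [kappa_eq 3]
    exact Pool.Agent.V11141.DP.one_le_kap 3
  have key : turanDensity 3 4 ≤ 5 / 9 ↔ 1 / kappa 5 ≤ 9 / 16 := by
    rw [div_le_iff₀ (by linarith), hk5]
    constructor
    · intro h; linarith
    · intro h; linarith
  have key2 : turanDensity 3 4 ≤ 5 / 9 ↔ Real.exp (-1) / kappa 5 ≤ 9 / 16 * Real.exp (-1) := by
    rw [key]
    have : Real.exp (-1) / kappa 5 = 1 / kappa 5 * Real.exp (-1) := by ring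
    rw [this]
    exact (mul_le_mul_iff_left₀ he).symm
  refine ⟨?_, ?_, ?_, ?_⟩
  · rintro r hr κ rfl
    refine ⟨?_, general r hr⟩
    have h1 : kappa r = Pool.Agent.V11141.DP.kap (r - 2) := by
      rw [← kappa_eq (r - 2), show r - 2 + 2 = r by omega]
    have h2 := Pool.Agent.V11141.DP.one_le_kap (r - 2)
    rw [← h1] at h2
    exact h2
  · have h := general 3 le_rfl
    rw [kappa_three] at h
    exact h
  · constructor
    · intro h
      exact powers_mono (key2.1 h) h5.1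
    · intro h
      exact key2.2 (powers_le h h5.2.1)
  · constructor
    · intro h
      exact large_mono (key.1 h) h5.2.2.1
    · intro h
      exact key.2 (large_le h h5.2.2.2)

end Pool.Agent.Results.MP_466853_co.DegreePowers
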