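import Pool.Agent.V1119.NE.MainAB

/-!
# Turán's `(3,4)`-conjecture under local conditions on the extensions of the edges

`G` is a 3-graph on `n` vertices in which every four vertices contain an edge. For an edge `T` let
`ext G j T` be the number of vertices `v` outside `T` such that `T ∪ {v}` contains exactly `j` edges
of `G`; so `ext G 4 T` is the number of complete quadruples which contain `T`. Let `0 ≤ l ≤ 1`. It is
proved that Turán's bound `|G| ≥ 2 n³ / 27 - n² / 2 + n / 3` (density `4/9`) holds, with stability,
if every edge `T` with `ext G 3 T > 0` and `ext G 2 T > 0` satisfies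

`ext G 4 T + 3 ≥ l * ext G 2 T + (1 - l) * 3 n / 10`.

For `l = 1` the condition says that `T` has (up to `3`) at least as many complete extensions as
extensions with exactly two edges, for `l = 0` that `T` lies in at least `3 n / 10 - 3` complete
quadruples; in Turán's construction with three equal parts each edge lies in at least `n / 3 - 3`
complete quadruples, and `ext G 3 T = 0`. The 3-graphs `G` with `ext G 3 T = 0` for all edges (no
four vertices with exactly three edges; in the complement, with exactly one edge) are those of
Razborov's theorem on Turán's problem. All this follows from an inequality for all such `G` with a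
sum over the edges that violate the condition.

Outline: two sum of squares certificates for six-vertex structures (for `l = 0` and `l = 1`) with a
multiplier for the type formed by the three vertices of an edge of `G` and products of three flags
with four vertices, found by a semidefinite programming solver and made exact, with a positive slack
for the 3-graphs on six vertices that are not contained in Turán's construction (checked by the
kernel).
-/

set_option autoImplicit false
open Finset
open scoped Classical

namespace Pool.Agent.Results.MP_466853_co.EdgeExtensions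
open Pool.Agent.TH773.Cov

/-- The number of vertices `v` outside `T` such that `T ∪ {v}` contains exactly `j` edges of `G`. -/
noncomputable def ext {n : ℕ} (G : Finset (Finset (Fin n))) (j : ℕ) (T : Finset (Fin n)) : ℕ :=
  ((univ : Finset (Fin n)).filter fun v =>
    v ∉ T ∧ (G.filter fun e => e ⊆ insert v T).card = j).card

/-- The bound for `|G|` in Turán's problem: `2 n³ / 27 - n² / 2 + n / 3`, which is
`C(n,3) - 5 n³ / 54`. -/
noncomputable def turanBound (n : ℕ) : ℝ := 2 / 27 * (n : ℝ) ^ 3 - (n : ℝ) ^ 2 / 2 + (n : ℝ) / 3

/-- For all 3-graphs `G` on `n` vertices in which every four vertices contain an edge and all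
`0 ≤ l ≤ 1`: (1) Turán's bound up to a sum over the edges; (2) the distance to Turán's construction;
(3) Turán's bound and stability under the local condition. (4) Turán's construction satisfies the
local condition, as `ext (turanC g) 3 T = 0`. -/
theorem result :
    (∀ (n : ℕ) (G : Finset (Finset (Fin n))), (∀ e ∈ G, e.card = 3) → CoversQuadruples G →
      ∀ l : ℝ, 0 ≤ l → l ≤ 1 →
      ((n : ℝ) ^ 3 * turanBound n ≤ (n : ℝ) ^ 3 * G.card + 40 / (4 + l) *
        ∑ T ∈ G, (ext G 3 T : ℝ) * ext G 2 T *
          (l * ext G 2 T + (1 - l) * (3 / 10 * n) - ext G 4 T - 3)) ∧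
      (∃ g : Fin n → Fin 3, (n : ℝ) ^ 3 * ((symmDiff G (turanC g)).card : ℝ) ≤
        2113413120 * ((n : ℝ) ^ 3 * G.card - (n : ℝ) ^ 3 * turanBound n + 40 / (4 + l) *
        ∑ T ∈ G, (ext G 3 T : ℝ) * ext G 2 T *
          max (l * ext G 2 T + (1 - l) * (3 / 10 * n) - ext G 4 T - 3) 0)) ∧
      ((∀ T ∈ G, ext G 3 T * ext G 2 T ≠ 0 →
          l * ext G 2 T + (1 - l) * (3 / 10 * (n : ℝ)) ≤ ext G 4 T + 3) →
        turanBound n ≤ G.card ∧ ∃ g : Fin n → Fin 3,
          ((symmDiff G (turanC g)).card : ℝ) ≤ 2113413120 * (G.card - turanBound n))) ∧
    (∀ (n : ℕ) (g : Fin n → Fin 3), CoversQuadruples (turanC g) ∧ (∀ e ∈ turanC g, e.card = 3) ∧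
      ∀ T ∈ turanC g, ext (turanC g) 3 T = 0) :=
  ⟨fun _ _ h3 hc l h0 h1 => ⟨Pool.Agent.V1119.NE.covAB h3 hc l h0 h1,
    Pool.Agent.V1119.NE.covSAB h3 hc l h0 h1,
    fun hl => Pool.Agent.V1119.NE.covLAB h3 hc l h0 h1 hl⟩,
    fun _ g => ⟨covers_turanC g, fun _ he => turanC_card he,
      fun T hT => Pool.Agent.V1119.NE.ext_turanC g T hT⟩⟩

end Pool.Agent.Results.MP_466853_co.EdgeExtensions
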