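import Mathlib
import Pool.Agent.V1130.TurG

/-!
# MP_466853_co: Turán's bound for the 3-graphs of the monochromatic triples of an edge colouring

Colour the pairs of a finite set with any number of colours, and let `H` be the 3-graph of the
monochromatic triples. If every four vertices contain an edge of `H`, then `H` has at least as many
edges as Turán's construction, for every number of vertices, and the extremal 3-graphs are
determined.
-/

set_option autoImplicit false

open Finset

namespace Pool.Agent.Results.MP_466853_co.MonochromaticTriples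

/-- the number of edges of Turán's construction with three parts that are as equal as possible:
`m (m - 1) (2 m - 1)` for `n = 3 m`, `m² (2 m - 1)` for `n = 3 m + 1` and `m² (2 m + 1)` for
`n = 3 m + 2` -/
def turanNumber (n : ℕ) : ℕ :=
  if n % 3 = 0 then n / 3 * (n / 3 - 1) * (2 * (n / 3) - 1)
  else if n % 3 = 1 then n / 3 * (n / 3) * (2 * (n / 3) - 1)
  else n / 3 * (n / 3) * (2 * (n / 3) + 1)

/-- all pairs of elements of `s` have the same colour -/
def Monochromatic {V C : Type*} (c : Sym2 V → C) (s : Finset V) : Prop :=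
  ∃ a, ∀ x ∈ s, ∀ y ∈ s, x ≠ y → c s(x, y) = a

/-- every four vertices contain an edge -/
def Covers {V : Type*} (H : Finset (Finset V)) : Prop :=
  ∀ T : Finset V, T.card = 4 → ∃ s ∈ H, s ⊆ T

/-- `H` is Turán's construction for the three parts given by `p`: its edges are the triples which
have at least two vertices in some part `i` and the other vertex (if any) in the part `i + 1`
(mod 3) -/
def IsTuran {V : Type*} [DecidableEq V] (H : Finset (Finset V)) (p : V → Fin 3) : Prop :=
  ∀ s : Finset V, s ∈ H ↔ s.card = 3 ∧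
    ∃ i, 2 ≤ (s.filter fun x => p x = i).card ∧ ∀ x ∈ s, p x = i ∨ p x = i + 1

theorem result :
    (∀ (V C : Type*) [Fintype V] [DecidableEq V] (c : Sym2 V → C) (H : Finset (Finset V)),
      (∀ s, s ∈ H ↔ s.card = 3 ∧ Monochromatic c s) → Covers H →
      -- the bound
      turanNumber (Fintype.card V) ≤ H.card ∧
      -- the extremal configurations
      (6 ≤ Fintype.card V → H.card = turanNumber (Fintype.card V) →
        ∃ p : V → Fin 3, (∀ i j, (univ.filter fun x => p x = i).card ≤
          (univ.filter fun x => p x = j).card + 1) ∧ IsTuran H p) ∧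
      -- all configurations with fewer edges than about half of the triples
      ((∃ p : V → Fin 3, (∀ i, 2 ≤ (univ.filter fun x => p x = i).card) ∧ IsTuran H p) ∨
        ((Fintype.card V).choose 3 : ℝ) / 2 -
          (Fintype.card V : ℝ) * (Fintype.card V - 1) / 8 ≤ H.card)) ∧
    -- the bound is attained
    (∀ n : ℕ, ∃ (c : Sym2 (Fin n) → Fin 3) (H : Finset (Finset (Fin n))),
      (∀ s, s ∈ H ↔ s.card = 3 ∧ Monochromatic c s) ∧ Covers H ∧ H.card = turanNumber n) := by
  classical
  have et : turanNumber = Pool.Agent.V1130.Tur.turan := rfl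
  have card_eq : ∀ (V C : Type _) [Fintype V] [DecidableEq V] (c : V → V → C)
      (H : Finset (Finset V)), (∀ s, s ∈ H ↔ s.card = 3 ∧ Pool.Agent.V1130.Tur.MonoS c s) →
      H.card = Pool.Agent.V1130.Tur.nMono c := by
    intro V C _ _ c H hH
    unfold Pool.Agent.V1130.Tur.nMono
    congr 1
    ext s
    rw [mem_filter, mem_powersetCard_univ, hH]
  constructor
  · intro V C _ _ c H hH hcov
    let c' : V → V → C := fun x y => c s(x, y)
    have hc : ∀ x y, c' x y = c' y x := fun x y => by
      show c s(x, y) = c s(y, x)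
      rw [Sym2.eq_swap]
    have hH' : ∀ s, s ∈ H ↔ s.card = 3 ∧ Pool.Agent.V1130.Tur.MonoS c' s := hH
    have hcov' : Pool.Agent.V1130.Tur.Cov c' := by
      apply Pool.Agent.V1130.Tur.cov_of_cover
      intro T hT
      obtain ⟨s, hs, hsT⟩ := hcov T hT
      exact ⟨s, ((hH' s).1 hs).1, ((hH' s).1 hs).2, hsT⟩
    have hcard := card_eq V C c' H hH'
    obtain ⟨g1, g2⟩ := Pool.Agent.V1130.Tur.bound hc hcov'
    have hT : ∀ p : V → Fin 3, (∀ s : Finset V, s.card = 3 →
        (Pool.Agent.V1130.Tur.MonoS c' s ↔ Pool.Agent.V1130.Tur.TurS p s)) → IsTuran H p := by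
      intro p hp s
      rw [hH' s]
      exact and_congr_right fun h3 => hp s h3
    refine ⟨by rw [et, hcard]; exact g1, fun h6 heq => ?_, ?_⟩
    · obtain ⟨p, hp, hp'⟩ := g2 h6 (by rw [← hcard, heq, et])
      exact ⟨p, hp, hT p hp'⟩
    · rcases Pool.Agent.V1130.Tur.dichotomy hc hcov' with ⟨p, hp, hp'⟩ | hB
      · exact Or.inl ⟨p, hp, hT p hp'⟩
      · right
        rw [hcard]
        refine le_trans (le_of_eq ?_) hB
        have h3 := Pool.Agent.V1130.Tur.choose3 (Fintype.card V)
        have h3' : 6 * ((Fintype.card V).choose 3 : ℝ) =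
            (Fintype.card V : ℝ) * (Fintype.card V - 1) * (Fintype.card V - 2) := by
          exact_mod_cast h3
        linarith
  · intro n
    obtain ⟨p, hp⟩ := Pool.Agent.V1130.Tur.sharp n
    let c : Sym2 (Fin n) → Fin 3 :=
      Sym2.lift ⟨Pool.Agent.V1130.Tur.col p, Pool.Agent.V1130.Tur.col_comm p⟩
    have hH : ∀ s, s ∈ ((univ : Finset (Fin n)).powersetCard 3).filter
        (Pool.Agent.V1130.Tur.MonoS (Pool.Agent.V1130.Tur.col p)) ↔
        s.card = 3 ∧ Monochromatic c s := by
      intro s
      rw [mem_filter, mem_powersetCard_univ]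
      rfl
    refine ⟨c, ((univ : Finset (Fin n)).powersetCard 3).filter
      (Pool.Agent.V1130.Tur.MonoS (Pool.Agent.V1130.Tur.col p)), hH, ?_, ?_⟩
    · intro T hT
      obtain ⟨x, y, z, w, hxy, hxz, hxw, hyz, hyw, hzw, rfl⟩ := card_eq_four.1 hT
      have mem : ∀ a b d : Fin n, a ≠ b → a ≠ d → b ≠ d →
          Pool.Agent.V1130.Tur.Mo (Pool.Agent.V1130.Tur.col p) a b d →
          ({a, b, d} : Finset (Fin n)) ∈ ((univ : Finset (Fin n)).powersetCard 3).filter
            (Pool.Agent.V1130.Tur.MonoS (Pool.Agent.V1130.Tur.col p)) := by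
        intro a b d h1 h2 h3 hm
        rw [mem_filter, mem_powersetCard_univ]
        exact ⟨card_eq_three.2 ⟨a, b, d, h1, h2, h3, rfl⟩,
          (Pool.Agent.V1130.Tur.monoS_iff (Pool.Agent.V1130.Tur.col_comm p) h1 h2 h3).2 hm⟩
      rcases Pool.Agent.V1130.Tur.col_cov p x y z w hxy hxz hxw hyz hyw hzw with h | h | h | h
      · refine ⟨{x, y, z}, mem _ _ _ hxy hxz hyz h, ?_⟩
        intro u hu
        simp only [mem_insert, mem_singleton] at hu ⊢
        tauto
      · refine ⟨{x, y, w}, mem _ _ _ hxy hxw hyw h, ?_⟩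
        intro u hu
        simp only [mem_insert, mem_singleton] at hu ⊢
        tauto
      · refine ⟨{x, z, w}, mem _ _ _ hxz hxw hzw h, ?_⟩
        intro u hu
        simp only [mem_insert, mem_singleton] at hu ⊢
        tauto
      · refine ⟨{y, z, w}, mem _ _ _ hyz hyw hzw h, ?_⟩
        intro u hu
        simp only [mem_insert, mem_singleton] at hu ⊢
        tauto
    · rw [et, ← hp]
      unfold Pool.Agent.V1130.Tur.nMono
      congr 1

end Pool.Agent.Results.MP_466853_co.MonochromaticTriples
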